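import Pool.Agent.helper70.BND.SpecH

/-!
Row bh:LTR of MP_376aaf_an: the transposed matrix maps the annihilator into the annihilator.
-/

set_option autoImplicit false

open scoped Topology
open Finset

namespace Pool.Agent.BND.EX

theorem LTR : LTR_stmt := by
  intro H _ H' A A' th th' M hA hA' hM j hj
  obtain ⟨a, ha⟩ := hA.ann (fun v => ∑ v' ∈ range A'.n, A'.c j v' * M v' v) (by
    intro z hz
    have h1 : ∑ v' ∈ range A'.n, (∑ v ∈ range A.n, (M v' v : ℤ) * z v) • th' v' ∈ H' := by
      have h2 : ∑ v' ∈ range A'.n, (∑ v ∈ range A.n, (M v' v : ℤ) * z v) • th' v' = ∑ v ∈ range A.n, z v • th v := by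
        have h3 : ∀ v' ∈ range A'.n, (∑ v ∈ range A.n, (M v' v : ℤ) * z v) • th' v' =
            ∑ v ∈ range A.n, ((M v' v : ℤ) * z v) • th' v' := fun v' _ => Finset.sum_smul
        rw [Finset.sum_congr rfl h3, Finset.sum_comm]
        refine Finset.sum_congr rfl fun v hv => ?_
        rw [hM v (mem_range.mp hv), Finset.smul_sum]
        refine Finset.sum_congr rfl fun v' _ => ?_
        rw [mul_comm, mul_smul, natCast_zsmul]
      rw [h2]
      exact hz
    have h4 := (hA'.mem (fun v' => ∑ v ∈ range A.n, (M v' v : ℤ) * z v)).mp h1 j hj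
    rw [← h4]
    simp only [Finset.sum_mul, Finset.mul_sum]
    rw [Finset.sum_comm]
    refine Finset.sum_congr rfl fun v' _ => Finset.sum_congr rfl fun v _ => ?_
    ring)
  exact ⟨a, ha⟩

end Pool.Agent.BND.EX
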